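import Pool.Agent.Lib.MP_462b8b_ag.NotQF
import Pool.Agent.Lib.MP_462b8b_ag.Large
import Pool.Agent.Lib.MP_462b8b_ag.SLRed

/-!
MP_462b8b_ag, Q2: the answer is no. `SL_2(ℂ)` acting on six copies of `ℂ²` is a 4-large
symplectic representation, and `μ⁻¹(0) // SL_2` is not `ℚ`-factorial.
-/

open Matrix TensorProduct

namespace Pool.Agent.Results.MP_462b8b_ag.LargeNotQFactorial

open Pool.Agent.Lib.MP_462b8b_ag

/-- Q2 of the problem has a negative answer. -/
theorem result :
    IsAlgGroup SL2 ∧ IsReductive SL2 ∧ rep6.IsSymplectic Omega ∧ rep6.IsLarge 4 ∧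
    (∀ θ : SL2 →* ℂˣ, θ = 1) ∧
    ¬ DivisorsQCartier (gitQuot rep6 (rep6.zeroFibre Omega) 1) ∧
    ¬ ForGeneric SL2 (fun θ => DivisorsQCartier (gitQuot rep6 (rep6.zeroFibre Omega) θ)) ∧
    ¬ ForGeneric SL2 (fun θ => IsQFactorial (gitQuot rep6 (rep6.zeroFibre Omega) θ)) := by
  have h1 : ¬ DivisorsQCartier (gitQuot rep6 (rep6.zeroFibre Omega) 1) := NQ.not_qcartier
  have h2 : ¬ ForGeneric SL2
      (fun θ => DivisorsQCartier (gitQuot rep6 (rep6.zeroFibre Omega) θ)) := by
    rintro ⟨F, _, hF, h⟩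
    apply h1
    have h' := h 0
    have hsub : Subsingleton (Additive (ratChar SL2)) := by
      refine ⟨fun a b => ?_⟩
      apply Additive.toMul.injective
      apply Subtype.ext
      rw [char_SL2 (Additive.toMul a).1, char_SL2 (Additive.toMul b).1]
    have htop : ∀ v : ℝ ⊗[ℤ] Additive (ratChar SL2), v = 0 := by
      intro v
      induction v using TensorProduct.induction_on with
      | zero => rfl
      | tmul r m => rw [Subsingleton.elim m 0, tmul_zero]
      | add a b ha hb => rw [ha, hb, add_zero]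
    refine h' fun W hW => ?_
    exfalso
    apply hF W hW
    rw [eq_top_iff]
    intro v _
    rw [htop v]
    exact W.zero_mem
  refine ⟨isAlgGroup_SL2, isReductive_SL2, isSymplectic_rep6, isLarge_rep6, char_SL2, h1, h2, ?_⟩
  rintro ⟨F, hF1, hF2, h⟩
  exact h2 ⟨F, hF1, hF2, fun θ hθ => (h θ hθ).2.2⟩

end Pool.Agent.Results.MP_462b8b_ag.LargeNotQFactorial
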