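import Pool.Agent.Lib.MP_462b8b_ag.Main
import Pool.Agent.Lib.MP_462b8b_ag.Coord
import Pool.Agent.Lib.MP_462b8b_ag.Cone

/-!
MP_462b8b_ag, Q1: the answer is yes. For every 2-large (even 2-modular) representation `V` of a
reductive group `G` the GIT quotient `μ⁻¹(0) //_θ G` is `ℚ`-factorial for generic `θ`.
-/

open Matrix

namespace Pool.Agent.Results.MP_462b8b_ag.TwoLargeQFactorial

open Pool.Agent.Lib.MP_462b8b_ag

/-- (1) Q1 of the problem holds. (2) It holds already if only `codim V_(r) ≥ r + 2` for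
`1 ≤ r ≤ dim G`. (3) More generally, `N //_θ G` is `ℚ`-factorial for generic `θ` for every
`G`-stable cone `N` in a representation such that `ℂ[N]` is a factorial domain. -/
theorem result :
    (∀ (n : Type) [Fintype n] [DecidableEq n] (G : Subgroup (GL n ℂ)), IsAlgGroup G →
      IsReductive G → ∀ (ι : Type) [Fintype ι] [DecidableEq ι] (ρ : RatRep G ι), ρ.IsLarge 2 →
      ForGeneric G fun θ => IsQFactorial (gitQuot ρ.cotangent ρ.cotangentZeroFibre θ)) ∧
    (∀ (n : Type) [Fintype n] [DecidableEq n] (G : Subgroup (GL n ℂ)), IsAlgGroup G →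
      IsReductive G → ∀ (ι : Type) [Fintype ι] [DecidableEq ι] (ρ : RatRep G ι),
      (∀ r, 1 ≤ r → r ≤ algDim G → CodimGE {v | algDim (ρ.stab v) = r} (r + 2)) →
      ForGeneric G fun θ => IsQFactorial (gitQuot ρ.cotangent ρ.cotangentZeroFibre θ)) ∧
    (∀ (n : Type) [Fintype n] [DecidableEq n] (G : Subgroup (GL n ℂ)), IsReductive G →
      ∀ (ι : Type) [Fintype ι] [DecidableEq ι] (ρ : RatRep G ι) (N : Set (ι → ℂ)),
      (∀ t : ℂ, ∀ y ∈ N, t • y ∈ N) → (∀ g : G, ∀ y ∈ N, ρ.toHom g *ᵥ y ∈ N) →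
      IsDomain (polyFun N) → UniqueFactorizationMonoid (polyFun N) →
      ForGeneric G fun θ => IsQFactorial (gitQuot ρ N θ)) := by
  have h3 : ∀ (n : Type) [Fintype n] [DecidableEq n] (G : Subgroup (GL n ℂ)), IsReductive G →
      ∀ (ι : Type) [Fintype ι] [DecidableEq ι] (ρ : RatRep G ι) (N : Set (ι → ℂ)),
      (∀ t : ℂ, ∀ y ∈ N, t • y ∈ N) → (∀ g : G, ∀ y ∈ N, ρ.toHom g *ᵥ y ∈ N) →
      IsDomain (polyFun N) → UniqueFactorizationMonoid (polyFun N) →
      ForGeneric G fun θ => IsQFactorial (gitQuot ρ N θ) := by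
    intro n _ _ G hred ι _ _ ρ N hcone hst hdom hufd
    exact forGeneric_isQFactorial hred ρ N hcone hst
  have h2 : ∀ (n : Type) [Fintype n] [DecidableEq n] (G : Subgroup (GL n ℂ)), IsAlgGroup G →
      IsReductive G → ∀ (ι : Type) [Fintype ι] [DecidableEq ι] (ρ : RatRep G ι),
      (∀ r, 1 ≤ r → r ≤ algDim G → CodimGE {v | algDim (ρ.stab v) = r} (r + 2)) →
      ForGeneric G fun θ => IsQFactorial (gitQuot ρ.cotangent ρ.cotangentZeroFibre θ) := by
    intro n _ _ G hG hred ι _ _ ρ h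
    have hdom := isDomain_coord hG ρ h
    exact h3 n G hred (ι ⊕ ι) ρ.cotangent ρ.cotangentZeroFibre (cotangent_cone ρ)
      (cotangent_stable ρ) hdom (ufd_coord hG ρ h)
  exact ⟨fun n _ _ G hG hred ι _ _ ρ hρ => h2 n G hG hred ι ρ hρ.2.2, h2, h3⟩

end Pool.Agent.Results.MP_462b8b_ag.TwoLargeQFactorial
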